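import Mathlib
import Pool.Agent.H2.PD.StmChk

/-!
Soundness of the machine `run` of `Pool/Agent/H2/PD/Chk.lean`: the theorem `run_ok`. It is `S_run` with one
extra hypothesis on the initial stack: the digits `e ≥ 18` of the states are zero. (The checker may use these
digits in `lleaf` for the numbers `12, ..., 15`, and it may open them; it is sound for the flow extended with period
`9` beyond the edge `9`.)
-/

set_option autoImplicit false

namespace Pool.Agent.H97.PDrun

open Pool.Agent.H2.PD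

/-- The extension with period `9`. -/
noncomputable def XT (X : ℕ → ℝ) (e : ℕ) : ℝ := if e < 9 then X e else X (9 + (e - 9) % 9)

theorem XT_lt (X : ℕ → ℝ) {e : ℕ} (h : e < 18) : XT X e = X e := by
  unfold XT
  split_ifs with h1
  · rfl
  · congr 1
    omega

/-- All values of the extension lie in the sectors of the state `s`. -/
def AllIn (X Y : ℕ → ℝ) (s : ℕ) : Prop := ∀ e : ℕ, InS (sc s e) (XT X e) (XT Y e)

theorem AllIn.inState {X Y : ℕ → ℝ} {s : ℕ} (h : AllIn X Y s) : InState s X Y := by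
  intro e he
  have h1 := h e
  rwa [XT_lt X he, XT_lt Y he] at h1

theorem allIn_of {X Y : ℕ → ℝ} {s : ℕ} (h : InState s X Y) (h0 : ∀ e, 18 ≤ e → sc s e = 0) :
    AllIn X Y s := by
  intro e
  rcases Nat.lt_or_ge e 18 with he | he
  · rw [XT_lt X he, XT_lt Y he]
    exact h e he
  · rw [h0 e he]
    exact Or.inl (by norm_num)

theorem nmT {X Y : ℕ → ℝ} (h : GoodN X Y) (e : ℕ) :
    1 ≤ N (XT X e) (XT Y e) ∧ N (XT X e) (XT Y e) ≤ 13161 / 10000 := by
  unfold XT
  split_ifs with h1
  · exact h.nm e (by omega)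
  · exact h.nm _ (by omega)

theorem hub {X : ℕ → ℝ} (h : ∀ j < 3, X (9 + j) + X (12 + j) + X (15 + j) = 0) {v : ℕ}
    (h9 : 9 ≤ v) (h15 : v < 16) : XT X v + XT X (v + 3) + XT X (v + 6) = 0 := by
  have a0 := h 0 (by norm_num)
  have a1 := h 1 (by norm_num)
  have a2 := h 2 (by norm_num)
  norm_num at a0 a1 a2
  interval_cases v <;> norm_num [XT] <;> linarith

/-! ### bit operations -/

theorem land_mod (a n : ℕ) : Nat.land a (2 ^ n - 1) = a % 2 ^ n := Nat.and_two_pow_sub_one_eq_mod a n

theorem land15 (a : ℕ) : Nat.land a 15 = a % 16 := land_mod a 4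
theorem land63 (a : ℕ) : Nat.land a 63 = a % 64 := land_mod a 6
theorem land127 (a : ℕ) : Nat.land a 127 = a % 128 := land_mod a 7
theorem land255 (a : ℕ) : Nat.land a 255 = a % 256 := land_mod a 8
theorem land65535 (a : ℕ) : Nat.land a 65535 = a % 65536 := land_mod a 16
theorem land32 (a : ℕ) : Nat.land a 4294967295 = a % 4294967296 := land_mod a 32
theorem shr8 (a : ℕ) : Nat.shiftRight a 8 = a / 256 := Nat.shiftRight_eq_div_pow a 8

theorem sc_lt (s e : ℕ) : sc s e < 65536 := by
  unfold sc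
  rw [land65535]
  exact Nat.mod_lt _ (by norm_num)

theorem cnd_and {c t : Bool} (h : cnd c t false = true) : c = true ∧ t = true := by
  cases c
  · exact absurd h Bool.false_ne_true
  · exact ⟨rfl, h⟩

theorem cod_eq (a w : ℕ) : cod a w = a % 256 + 256 * w := by
  unfold cod
  rw [land255]
  rfl

/-! ### the steps -/

section

variable {X Y : ℕ → ℝ}

theorem lleaf_sound (hEv : EvOK) (hL : S_lleaf) (hG : GoodN X Y) {s v w : ℕ} (hv : v < 16)
    (hw : w < 2 ^ 32) (h : lleaf s v w = true) : ¬ AllIn X Y s := by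
  intro hA
  rcases Nat.lt_or_ge v 12 with h12 | h12
  · exact hL hEv X Y hG s v w hv hw hA.inState h h12
  · have h1 : lleaf s v w = Nat.ble (Nat.succ (Nat.add (ev (sc s v) 2147516416 w)
        (Nat.add (ev (sc s (Nat.add v 3)) 2147516416 w) (ev (sc s (Nat.add v 6)) 2147516416 w))))
        3458764513820540928 := by
      unfold lleaf
      have h2 : Nat.ble v 8 = false := by
        have h3 : ¬ Nat.ble v 8 = true := fun h3 => by
          have := Nat.le_of_ble_eq_true h3
          omega
        exact Bool.eq_false_iff.2 h3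
      rw [h2, cnd_false]
    rw [h1] at h
    have h2 := Nat.le_of_ble_eq_true h
    have h3 : ev (sc s v) 2147516416 w + (ev (sc s (v + 3)) 2147516416 w +
        ev (sc s (v + 6)) 2147516416 w) + 1 ≤ 3458764513820540928 := h2
    have e1 := hEv (sc s v) 2147516416 w (sc_lt _ _) (by norm_num) hw _ _ (nmT hG v).1
      (nmT hG v).2 (hA v)
    have e2 := hEv (sc s (v + 3)) 2147516416 w (sc_lt _ _) (by norm_num) hw _ _ (nmT hG (v + 3)).1
      (nmT hG (v + 3)).2 (hA (v + 3))
    have e3 := hEv (sc s (v + 6)) 2147516416 w (sc_lt _ _) (by norm_num) hw _ _ (nmT hG (v + 6)).1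
      (nmT hG (v + 6)).2 (hA (v + 6))
    have h4 : ((ev (sc s v) 2147516416 w : ℕ) : ℝ) + ((ev (sc s (v + 3)) 2147516416 w : ℕ) +
        (ev (sc s (v + 6)) 2147516416 w : ℕ)) + 1 ≤ 3458764513820540928 := by
      exact_mod_cast h3
    have hx := hub hG.hx (v := v) (by omega) hv
    have hy := hub hG.hy (v := v) (by omega) hv
    generalize (((2147516416 % 65536 : ℕ) : ℝ) - ((w % 65536 : ℕ) : ℝ)) = dx at e1 e2 e3
    generalize (((2147516416 / 65536 : ℕ) : ℝ) - ((w / 65536 : ℕ) : ℝ)) = dy at e1 e2 e3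
    have h5 : dx * XT X v + dy * XT Y v + (dx * XT X (v + 3) + dy * XT Y (v + 3)) +
        (dx * XT X (v + 6) + dy * XT Y (v + 6)) = 0 := by
      linear_combination dx * hx + dy * hy
    have h6 : (2 : ℝ) ^ 60 * 3 = 3458764513820540928 := by norm_num
    nlinarith

/-- The new state after the replacement of the code of the edge `e`. -/
theorem upd_in (hU : ∀ s e n m : ℕ, n < 65536 → m < 16777216 → ∀ e',
    sc (upd s e (sc s e) n m) e' = if e' = e then n else sc s e') {s e n m : ℕ} (hn : n < 65536)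
    (hm : m < 16777216) (hA : AllIn X Y s) (h : InS n (XT X e) (XT Y e)) :
    AllIn X Y (upd s e (sc s e) n m) := by
  intro e'
  rw [hU s e n m hn hm e']
  split_ifs with h1
  · rw [h1]
    exact h
  · exact hA e'

theorem mem2 {s1 s2 : ℕ} {rest : List ℕ} {P : ℕ → Prop}
    (h : ∀ s ∈ (s1 :: s2 :: rest), P s) : P s1 ∧ P s2 ∧ ∀ s ∈ rest, P s :=
  ⟨h s1 (by simp), h s2 (by simp), fun s hs => h s (by simp [hs])⟩

theorem step_sound (hEv : EvOK) (hL : S_lleaf) (hF : S_leaf)
    (hU : ∀ s e n m : ℕ, n < 65536 → m < 16777216 → ∀ e',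
      sc (upd s e (sc s e) n m) e' = if e' = e then n else sc s e')
    (hC1 : ∀ (c k : ℕ) (x y : ℝ), c < 65536 → 1 ≤ k → k + 1 ≤ c / 256 → InS c x y →
      InS (c % 256 + 256 * k) x y ∨ InS ((c % 256 + k) % 256 + 256 * (c / 256 - k)) x y)
    (hC2 : ∀ (a w : ℕ) (x y : ℝ), a < 256 → 1 ≤ w → w < 128 →
      InS (a % 256 + 256 * w) x y ∨ InS ((a + w) % 256 + 256 * (128 - w)) x y ∨
      InS ((a + 128) % 256 + 256 * w) x y ∨ InS ((a + 128 + w) % 256 + 256 * (128 - w)) x y)
    (hZ : S_zone) (hT : TabOK) (hK : ∀ w, 1 ≤ w → w ≤ 63 → gK w ≠ 0) (hG : GoodN X Y) {Z : ℕ}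
    (hZ4 : Z = 8 ∨ Z = 16 ∨ Z = 24 ∨ Z = 32)
    (hN : Z = 32 ∨ ∀ e < 9, min |X e| |Y e| * (px Z : ℝ) ≤ max |X e| |Y e| * (py Z : ℝ))
    {n : ℕ} (hn : n < 4000000)
    (ih : ∀ (cs : List ℕ) (T : ℕ) (st : List ℕ), run Z n cs T st = true →
      ∀ s ∈ st, ¬ AllIn X Y s)
    {s T : ℕ} {rest cs : List ℕ} (h : step Z n s T rest cs (run Z n) = true) :
    ¬ AllIn X Y s ∧ ∀ s' ∈ rest, ¬ AllIn X Y s' := by
  unfold step at h
  simp only [frc_eq] at h
  cases hb1 : Nat.beq (Nat.land T 7) 1 with
  | true =>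
    rw [hb1, cnd_true] at h
    obtain ⟨h1, h2⟩ := cnd_and h
    refine ⟨lleaf_sound hEv hL hG ?_ ?_ h1, ih _ _ _ h2⟩
    · rw [land15]
      exact Nat.mod_lt _ (by norm_num)
    · rw [land32]
      exact Nat.mod_lt _ (by norm_num)
  | false =>
  rw [hb1, cnd_false] at h
  cases hb2 : Nat.beq (Nat.land T 7) 2 with
  | true =>
    rw [hb2, cnd_true] at h
    generalize Nat.land (Nat.shiftRight T 3) 31 = e at h
    have hk : Nat.land (Nat.shiftRight T 8) 127 < 128 := by
      rw [land127]
      exact Nat.mod_lt _ (by norm_num)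
    generalize Nat.land (Nat.shiftRight T 8) 127 = k at h hk
    unfold stS at h
    obtain ⟨h1, h⟩ := cnd_and h
    obtain ⟨h2, h⟩ := cnd_and h
    unfold psh2 at h
    simp only [frc_eq] at h
    have h1' := Nat.le_of_ble_eq_true h1
    have h2' := Nat.le_of_ble_eq_true h2
    rw [shr8] at h2'
    have h3 : k + 1 ≤ sc s e / 256 := h2'
    obtain ⟨g1, g2, g3⟩ := mem2 (ih _ _ _ h)
    refine ⟨fun hA => ?_, g3⟩
    have hc := sc_lt s e
    rcases hC1 (sc s e) k _ _ hc h1' h3 (hA e) with h4 | h4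
    · refine g1 (upd_in hU ?_ ?_ hA ?_)
      · rw [cod_eq]
        omega
      · show 4 * n < 16777216
        omega
      · rw [cod_eq]
        exact h4
    · refine g2 (upd_in hU ?_ ?_ hA ?_)
      · rw [cod_eq, shr8, land255]
        show (sc s e % 256 + k) % 256 + 256 * (sc s e / 256 - k) < 65536
        omega
      · show 4 * n + 1 < 16777216
        omega
      · rw [cod_eq, shr8, land255]
        exact h4
  | false =>
  rw [hb2, cnd_false] at h
  cases hb5 : Nat.beq (Nat.land T 7) 5 with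
  | true =>
    rw [hb5, cnd_true] at h
    generalize Nat.land (Nat.shiftRight T 3) 31 = e at h
    unfold stZ at h
    obtain ⟨h1, h⟩ := cnd_and h
    obtain ⟨h2, h⟩ := cnd_and h
    obtain ⟨h3, h⟩ := cnd_and h
    obtain ⟨h4, h⟩ := cnd_and h
    simp only [frc_eq] at h
    refine ⟨fun hA => ?_, ih _ _ _ h⟩
    have h1' := Nat.le_of_ble_eq_true h1
    have h2' := Nat.le_of_ble_eq_true h2
    have h3' := Nat.le_of_ble_eq_true h3
    have h4' := Nat.le_of_ble_eq_true h4
    rw [land63] at h3' h4'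
    rw [shr8] at h4'
    have h5 : Z + 1 ≤ sc s e % 64 := h3'
    have h6 : sc s e % 64 + sc s e / 256 + Z ≤ 63 := h4'
    rcases hN with hN | hN
    · omega
    · have hZ3 : Z = 8 ∨ Z = 16 ∨ Z = 24 := by omega
      have he : e < 18 := by omega
      have hc := sc_lt s e
      have h7 := hA.inState e he
      have h8 := hZ hT Z (sc s e) (X e) (Y e) hZ3 hc h2' h5 h6
        (hK _ (by omega) (by omega)) h7 (fun h9 => by
          have h10 := (hG.nm e he).1
          rw [Prod.mk.injEq] at h9
          rw [h9.1, h9.2] at h10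
          have h11 : N 0 0 = 0 := by
            unfold N
            rw [abs_zero, Real.zero_rpow (by norm_num), add_zero, Real.zero_rpow (by norm_num)]
          rw [h11] at h10
          linarith)
      have h9 := hN e (by omega)
      linarith
  | false =>
  rw [hb5, cnd_false] at h
  cases hb3 : Nat.beq (Nat.land T 7) 3 with
  | true =>
    rw [hb3, cnd_true] at h
    generalize Nat.land (Nat.shiftRight T 3) 31 = e at h
    have ha : Nat.land (Nat.shiftRight T 8) 255 < 256 := by
      rw [land255]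
      exact Nat.mod_lt _ (by norm_num)
    generalize Nat.land (Nat.shiftRight T 8) 255 = a at h ha
    have hw : Nat.land (Nat.shiftRight T 16) 127 < 128 := by
      rw [land127]
      exact Nat.mod_lt _ (by norm_num)
    generalize Nat.land (Nat.shiftRight T 16) 127 = w at h hw
    unfold stO at h
    obtain ⟨h1, h⟩ := cnd_and h
    obtain ⟨h2, h⟩ := cnd_and h
    unfold psh4 at h
    simp only [frc_eq] at h
    have h1' : sc s e = 0 := Nat.eq_of_beq_eq_true h1
    have h2' : 1 ≤ w := Nat.le_of_ble_eq_true h2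
    obtain ⟨g1, g2, g3⟩ := mem2 (ih _ _ _ h)
    have g4 := g3 _ List.mem_cons_self
    have g5 := g3 _ (List.mem_cons_of_mem _ List.mem_cons_self)
    rw [← h1'] at g1 g2 g4 g5
    refine ⟨fun hA => ?_, fun s' hs' =>
      g3 s' (List.mem_cons_of_mem _ (List.mem_cons_of_mem _ hs'))⟩
    rcases hC2 a w (XT X e) (XT Y e) ha h2' hw with h4 | h4 | h4 | h4
    · refine g1 (upd_in hU ?_ ?_ hA ?_)
      · rw [cod_eq]
        omega
      · show 4 * n < 16777216
        omega
      · rw [cod_eq]
        exact h4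
    · refine g2 (upd_in hU ?_ ?_ hA ?_)
      · rw [cod_eq]
        show (a + w) % 256 + 256 * (128 - w) < 65536
        omega
      · show 4 * n + 1 < 16777216
        omega
      · rw [cod_eq]
        exact h4
    · refine g4 (upd_in hU ?_ ?_ hA ?_)
      · rw [cod_eq]
        show (a + 128) % 256 + 256 * w < 65536
        omega
      · show 4 * n + 2 < 16777216
        omega
      · rw [cod_eq]
        exact h4
    · refine g5 (upd_in hU ?_ ?_ hA ?_)
      · rw [cod_eq]
        show (a + 128 + w) % 256 + 256 * (128 - w) < 65536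
        omega
      · show 4 * n + 3 < 16777216
        omega
      · rw [cod_eq]
        exact h4
  | false =>
  rw [hb3, cnd_false] at h
  cases hb0 : Nat.beq (Nat.land T 7) 0 with
  | true =>
    rw [hb0, cnd_true] at h
    obtain ⟨h1, h2⟩ := cnd_and h
    exact ⟨fun hA => hF hEv X Y hG s _ hA.inState h1, ih _ _ _ h2⟩
  | false =>
    rw [hb0, cnd_false] at h
    cases cs with
    | nil => exact absurd h Bool.false_ne_true
    | cons T' cs' =>
      have h1 := ih cs' T' (s :: rest) h
      exact ⟨h1 s List.mem_cons_self, fun s' hs' => h1 s' (List.mem_cons_of_mem _ hs')⟩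

end

/-- **Soundness of the machine.** -/
theorem run_ok : EvOK → S_lleaf → S_leaf → S_upd → S_dig → S_cut → S_zone → TabOK →
    (∀ w, 1 ≤ w → w ≤ 63 → gK w ≠ 0) →
    ∀ (X Y : ℕ → ℝ), GoodN X Y → ∀ Z, (Z = 8 ∨ Z = 16 ∨ Z = 24 ∨ Z = 32) →
    (Z = 32 ∨ ∀ e < 9, min |X e| |Y e| * (px Z : ℝ) ≤ max |X e| |Y e| * (py Z : ℝ)) →
    ∀ (fuel : ℕ), fuel ≤ 4000000 → ∀ (cs : List ℕ) (T : ℕ) (st : List ℕ),
      (∀ s ∈ st, ∀ e, 18 ≤ e → sc s e = 0) → run Z fuel cs T st = true →
      ∀ s ∈ st, ¬ InState s X Y := by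
  intro hEv hL hF hUp hD hC hZo hT hK X Y hG Z hZ4 hN
  have hU := hUp hD
  have hC' := hC hT
  have main : ∀ (fuel : ℕ), fuel ≤ 4000000 → ∀ (cs : List ℕ) (T : ℕ) (st : List ℕ),
      run Z fuel cs T st = true → ∀ s ∈ st, ¬ AllIn X Y s := by
    intro fuel
    induction fuel with
    | zero =>
      intro _ cs T st h
      exact absurd h Bool.false_ne_true
    | succ n ih =>
      intro hn cs T st h
      cases st with
      | nil =>
        intro s hs
        exact absurd hs List.not_mem_nil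
      | cons s rest =>
        have h1 : step Z n s T rest cs (run Z n) = true := h
        have h2 := step_sound hEv hL hF hU hC'.1 hC'.2 hZo hT hK hG hZ4 hN (by omega)
          (ih (by omega)) h1
        intro s' hs'
        rcases List.mem_cons.1 hs' with h3 | h3
        · rw [h3]
          exact h2.1
        · exact h2.2 s' h3
  intro fuel hf cs T st h0 h s hs hin
  exact main fuel hf cs T st h s hs (allIn_of hin (h0 s hs))

/-- A state below `2 ^ 200` has no digits `e ≥ 18`. -/
theorem sc_zero {s : ℕ} (hs : s < 2 ^ 200) (e : ℕ) (he : 18 ≤ e) : sc s e = 0 := by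
  unfold sc
  rw [land65535]
  have h1 : Nat.shiftRight s (Nat.add 24 (Nat.mul 16 e)) = s / 2 ^ (24 + 16 * e) :=
    Nat.shiftRight_eq_div_pow s (24 + 16 * e)
  have h2 : s < 2 ^ (24 + 16 * e) :=
    hs.trans_le (Nat.pow_le_pow_right (by norm_num) (by omega))
  rw [h1, Nat.div_eq_of_lt h2]

end Pool.Agent.H97.PDrun
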