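import Pool.Agent.H283.HT.Stm

set_option autoImplicit false

namespace Pool.Agent.H97.HTINT

open Pool.Agent.H283.HT

theorem aux {K : Set P3} (hK : Body K) {p : P2} {z₀ z z₂ : ℝ} (h0 : ((p, z₀) : P3) ∈ interior K)
    (h2 : ((p, z₂) : P3) ∈ K) (hz : 0 < (z₂ - z) / (z₂ - z₀)) (hz' : 0 ≤ (z - z₀) / (z₂ - z₀))
    (hne : z₂ - z₀ ≠ 0) : ((p, z) : P3) ∈ interior K := by
  have h := hK.conv.combo_interior_self_mem_interior h0 h2 hz hz' (by field_simp; ring)
  have e : (((z₂ - z) / (z₂ - z₀)) • ((p, z₀) : P3) + ((z - z₀) / (z₂ - z₀)) • ((p, z₂) : P3)) =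
      ((p, z) : P3) := by
    ext
    · simp only [Prod.fst_add, Prod.smul_fst, smul_eq_mul]
      field_simp
      ring
    · simp only [Prod.fst_add, Prod.smul_fst, Prod.snd_add, Prod.smul_snd, smul_eq_mul]
      field_simp
      ring
    · simp only [Prod.snd_add, Prod.smul_snd, smul_eq_mul]
      field_simp
      ring
  rwa [e] at h

/-- **INT** -/
theorem INT_done (hSH : S_SH) : S_INT := by
  intro K hK p z₁ z z₂ hp h1 h2 hz1 hz2
  obtain ⟨z₀, hz₀⟩ := (hSH K hK).2 p hp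
  rcases le_or_gt z₀ z with h | h
  · have a : 0 < z₂ - z₀ := by linarith
    exact aux hK hz₀ h2 (div_pos (by linarith) a) (div_nonneg (by linarith) a.le) a.ne'
  · have a : z₁ - z₀ < 0 := by linarith
    exact aux hK hz₀ h1 (div_pos_of_neg_of_neg (by linarith) a)
      (div_nonneg_of_nonpos (by linarith) a.le) a.ne

end Pool.Agent.H97.HTINT
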