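import Pool.Agent.H465.CG.Stm2

/-!
# The multiplicity of a zero on the line is small if the zeros are equidistributed
(project CG of helper465, statement `SOrd`, written by helper97)
-/

set_option autoImplicit false
set_option linter.unusedSectionVars false

open Filter Topology Set Metric MeasureTheory

namespace Pool.Agent.H97.CGSOrd

open Pool.Agent.H465.PT (Deg zs)
open Pool.Agent.H465.EQ (pt mu mu_nonneg mu_ne finite_zeros)

/-- the tent function -/
noncomputable def tent (N : ℝ) (a : ℂ) (z : ℂ) : ℝ := max 0 (min 1 (2 - N * dist z a))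

lemma tent_cont (N : ℝ) (a : ℂ) : Continuous (tent N a) := by
  unfold tent
  fun_prop

lemma tent_nonneg (N : ℝ) (a z : ℂ) : 0 ≤ tent N a z := le_max_left _ _

lemma tent_le_one (N : ℝ) (a z : ℂ) : tent N a z ≤ 1 :=
  max_le zero_le_one (min_le_left _ _)

lemma tent_one {N : ℝ} {a z : ℂ} (h : N * dist z a ≤ 1) : tent N a z = 1 := by
  unfold tent
  rw [min_eq_left (by linarith), max_eq_right zero_le_one]

lemma tent_zero {N : ℝ} {a z : ℂ} (h : 2 ≤ N * dist z a) : tent N a z = 0 := by
  unfold tent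
  rw [max_eq_left]
  exact (min_le_right _ _).trans (by linarith)

lemma tent_supp {N : ℝ} (hN : 0 < N) {a z : ℂ} (h : z ∉ closedBall a (2 / N)) :
    tent N a z = 0 := by
  rw [mem_closedBall, not_le, div_lt_iff₀ hN] at h
  exact tent_zero (by linarith)

lemma tent_compact {N : ℝ} (hN : 0 < N) (a : ℂ) : HasCompactSupport (tent N a) :=
  HasCompactSupport.intro (isCompact_closedBall a (2 / N)) fun _ h => tent_supp hN h

lemma dist_pt (t s : ℝ) : dist (pt t) (pt s) = |t - s| := by
  rw [Complex.dist_of_re_eq (by rfl)]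
  rfl

/-- the integral of the tent function along the line -/
lemma tent_int {N : ℝ} (hN : 0 < N) (s : ℝ) :
    ∫ t : ℝ, tent N (pt s) (pt t) ≤ 4 / N := by
  have h1 : ∫ t : ℝ, tent N (pt s) (pt t) ≤
      ∫ t : ℝ, (Icc (s - 2 / N) (s + 2 / N)).indicator (fun _ => (1 : ℝ)) t := by
    refine integral_mono_of_nonneg (Eventually.of_forall fun t => tent_nonneg _ _ _) ?_
      (Eventually.of_forall fun t => ?_)
    · rw [integrable_indicator_iff measurableSet_Icc]
      exact integrableOn_const (by simp)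
    · by_cases ht : t ∈ Icc (s - 2 / N) (s + 2 / N)
      · rw [indicator_of_mem ht]
        exact tent_le_one _ _ _
      · rw [indicator_of_notMem ht]
        refine (tent_supp hN ?_).le
        rw [mem_closedBall, dist_pt]
        intro h2
        rw [abs_le] at h2
        exact ht ⟨by linarith [h2.1], by linarith [h2.2]⟩
  refine h1.trans (le_of_eq ?_)
  rw [integral_indicator measurableSet_Icc, setIntegral_const, smul_eq_mul, mul_one,
    measureReal_def, Real.volume_Icc, ENNReal.toReal_ofReal (by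
      have : 0 < 2 / N := by positivity
      linarith)]
  ring

/-- the multiplicity of a point is at most the sum over the zeros -/
lemma order_le {c b : ℝ → ℝ} {k n : ℕ} {x : ℝ} {Λ L : ℂ → ℂ} (h : Deg c b k n x Λ L)
    {g : ℂ → ℝ} (g0 : ∀ z, 0 ≤ g z) (hg : HasCompactSupport g) {t : ℝ} (ht : g (pt t) = 1) :
    (analyticOrderNatAt L (pt t) : ℝ) ≤ zs L g := by
  classical
  have h2 : Λ 2 ≠ 0 := h.neL (by norm_num)
  obtain ⟨M, hM⟩ := hg.isCompact.isBounded.subset_closedBall (0 : ℂ)
  have hfin := finite_zeros h.ent h2 M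
  have hsupp : (Function.support fun u => mu Λ u * g u) ⊆ (hfin.toFinset : Set ℂ) := by
    intro u hu
    rw [Function.mem_support] at hu
    rw [Finite.coe_toFinset]
    exact ⟨mu_ne h.ent (left_ne_zero_of_mul hu),
      hM (subset_tsupport g (right_ne_zero_of_mul hu))⟩
  have hmu : (analyticOrderNatAt L (pt t) : ℝ) = mu Λ (pt t) := by
    rw [h.mu_eq, if_pos]
    show (0 : ℝ) < 1 / 2 ∧ (1 / 2 : ℝ) < 1
    norm_num
  rw [hmu, h.zs_eq, finsum_eq_sum_of_support_subset _ hsupp]
  by_cases h3 : mu Λ (pt t) = 0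
  · rw [h3]
    exact Finset.sum_nonneg fun u _ => mul_nonneg (mu_nonneg _ _) (g0 _)
  · have h4 : pt t ∈ hfin.toFinset := by
      have : pt t ∈ (hfin.toFinset : Set ℂ) := hsupp (by
        rw [Function.mem_support, ht, mul_one]
        exact h3)
      exact this
    have h5 := Finset.single_le_sum (f := fun u => mu Λ u * g u)
      (fun u _ => mul_nonneg (mu_nonneg _ _) (g0 _)) h4
    simp only [ht, mul_one] at h5
    exact h5

/-- **ORD.** -/
theorem tSOrd : Pool.Agent.H465.CG.SOrd := by
  intro c b ι l k n x Λ L hD hx hlim T ε hε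
  obtain ⟨N', hN'⟩ := exists_nat_one_div_lt (half_pos hε)
  set N : ℝ := (N' : ℝ) + 1 with hN
  have hNpos : 0 < N := by positivity
  set J : ℤ := ⌈N * |T|⌉ + 1 with hJ
  have hfin : ∀ᶠ i in l, ∀ j ∈ Finset.Icc (-J) J,
      zs (L i) (tent N (pt ((j : ℝ) / N))) / x i ≤ ε := by
    rw [eventually_all_finset]
    intro j _
    have h1 := hlim (tent N (pt ((j : ℝ) / N))) (tent_cont _ _) (tent_compact hNpos _)
    have h2 : 1 / (2 * Real.pi) * ∫ t : ℝ, tent N (pt ((j : ℝ) / N)) (pt t) < ε := by
      have h3 := tent_int hNpos ((j : ℝ) / N)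
      have h4 : 0 < 1 / (2 * Real.pi) := by positivity
      have h5 : 1 / (2 * Real.pi) * ∫ t : ℝ, tent N (pt ((j : ℝ) / N)) (pt t) ≤
          1 / (2 * Real.pi) * (4 / N) := mul_le_mul_of_nonneg_left h3 h4.le
      have h6 : 1 / (2 * Real.pi) * (4 / N) ≤ 1 / N := by
        rw [div_mul_div_comm, one_mul, div_le_div_iff₀ (by positivity) hNpos]
        nlinarith [Real.pi_gt_three]
      have h7 : 1 / N < ε / 2 := hN'
      linarith
    filter_upwards [h1.eventually_lt_const h2] with i hi using hi.le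
  filter_upwards [hfin, hx] with i hi hxi t ht
  set j : ℤ := ⌊N * t⌋ with hj
  have hj1 : (j : ℝ) ≤ N * t := Int.floor_le _
  have hj2 : N * t < j + 1 := Int.lt_floor_add_one _
  have ht' := abs_le.1 ht
  have hNT : N * |T| ≤ (⌈N * |T|⌉ : ℝ) := Int.le_ceil _
  have hTT : T ≤ |T| := le_abs_self T
  have hjJ : j ∈ Finset.Icc (-J) J := by
    rw [Finset.mem_Icc]
    constructor
    · have h1 : (-(J : ℝ)) < j + 1 := by
        rw [hJ]
        push_cast
        nlinarith
      have h2 : -J < j + 1 := by exact_mod_cast h1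
      omega
    · have h1 : (j : ℝ) ≤ J := by
        rw [hJ]
        push_cast
        nlinarith
      exact_mod_cast h1
  have h1 := hi j hjJ
  rw [div_le_iff₀ hxi] at h1
  refine (order_le (hD i) (tent_nonneg N (pt ((j : ℝ) / N))) (tent_compact hNpos _) ?_).trans h1
  refine tent_one ?_
  rw [dist_pt]
  have h2 : N * |t - (j : ℝ) / N| = |N * t - j| := by
    rw [← abs_of_pos hNpos, ← abs_mul, abs_of_pos hNpos, mul_sub, mul_div_cancel₀ _ hNpos.ne']
  rw [h2, abs_le]
  constructor <;> linarith

end Pool.Agent.H97.CGSOrd
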