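import Pool.Agent.H666.TK.SpecB

/-!
# Tuples of `PP` with more adjacencies (B7; written by helper97)
-/

set_option autoImplicit false

open Finset
open scoped Classical

namespace Pool.Agent.H97.TK

open Pool.Agent.H666.TK

/-- counting by fibres, each of which is parametrised by a small set -/
theorem card_fib {V α β : Type} (s : Finset α) (t : Finset β) (f : α → β) (B : ℕ)
    (hf : ∀ p ∈ s, f p ∈ t)
    (h : ∀ p ∈ s, ∃ D : Finset V, D.card ≤ B ∧ ∃ g : V → α, ∀ q ∈ s, f q = f p → ∃ v ∈ D, g v = q) :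
    s.card ≤ B * t.card := by
  refine Finset.card_le_mul_card_image_of_maps_to hf B fun b _ => ?_
  rcases (s.filter fun q => f q = b).eq_empty_or_nonempty with h0 | ⟨p, hp⟩
  · rw [h0, card_empty]
    exact Nat.zero_le _
  · rw [mem_filter] at hp
    obtain ⟨D, hD, g, hg⟩ := h p hp.1
    refine le_trans (card_le_card (t := D.image g) fun q hq => ?_) (card_image_le.trans hD)
    rw [mem_filter] at hq
    obtain ⟨v, hv, hv'⟩ := hg q hq.1 (hq.2.trans hp.2.symm)
    exact mem_image.2 ⟨v, hv, hv'⟩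

theorem p12 : S_p12 := by
  intro V _ _ H B k
  constructor
  · refine card_fib (V := V) _ _ (fun p => (p.1, p.2.2.2.2, p.2.1, p.2.2.2.1)) B ?_ ?_
    · rintro ⟨R, a, b, x, z⟩ hp
      simp only [PP, mem_filter, mem_univ, true_and] at hp
      obtain ⟨⟨hR, hL, hxz⟩, hza⟩ := hp
      simp only [CH, mem_filter, mem_univ, true_and]
      exact ⟨hR, hza, AD_symm hxz, hL.1.2.1⟩
    · rintro ⟨R, a, b, x, z⟩ hp
      simp only [PP, mem_filter, mem_univ, true_and] at hp
      obtain ⟨⟨hR, hL, hxz⟩, hza⟩ := hp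
      refine ⟨univ.filter fun v => Tr H R a x v, hL.2.2.1.le, fun v => (R, a, v, x, z), ?_⟩
      rintro ⟨R', a', b', x', z'⟩ hq heq
      simp only [PP, mem_filter, mem_univ, true_and] at hq
      simp only [Prod.mk.injEq] at heq
      obtain ⟨rfl, rfl, rfl, rfl⟩ := heq
      refine ⟨b', ?_, rfl⟩
      rw [mem_filter]
      exact ⟨mem_univ _, Tr_swap23 hq.1.2.1.1⟩
  · refine card_fib (V := V) _ _ (fun p => (p.1, p.2.2.2.2, p.2.2.1, p.2.2.2.1)) B ?_ ?_
    · rintro ⟨R, a, b, x, z⟩ hp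
      simp only [PP, mem_filter, mem_univ, true_and] at hp
      obtain ⟨⟨hR, hL, hxz⟩, hzb⟩ := hp
      simp only [CH, mem_filter, mem_univ, true_and]
      exact ⟨hR, hzb, AD_symm hxz, hL.1.2.2.1⟩
    · rintro ⟨R, a, b, x, z⟩ hp
      simp only [PP, mem_filter, mem_univ, true_and] at hp
      obtain ⟨⟨hR, hL, hxz⟩, hzb⟩ := hp
      refine ⟨univ.filter fun v => Tr H R b x v, hL.2.2.2.le, fun v => (R, v, b, x, z), ?_⟩
      rintro ⟨R', a', b', x', z'⟩ hq heq
      simp only [PP, mem_filter, mem_univ, true_and] at hq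
      simp only [Prod.mk.injEq] at heq
      obtain ⟨rfl, rfl, rfl, rfl⟩ := heq
      refine ⟨a', ?_, rfl⟩
      rw [mem_filter]
      exact ⟨mem_univ _, Tr_swap23 (Tr_swap12 hq.1.2.1.1)⟩

theorem p3 : S_p3 := by
  intro V _ _ H B k
  refine card_fib (V := V) _ _ (fun p => (p.1, p.2.1, p.2.2.1, p.2.2.2.1)) B ?_ ?_
  · rintro ⟨R, a, b, x, z⟩ hp
    simp only [PP, mem_filter, mem_univ, true_and] at hp
    simp only [TL, mem_filter, mem_univ, true_and]
    exact ⟨hp.1.1, hp.1.2.1⟩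
  · rintro ⟨R, a, b, x, z⟩ hp
    simp only [PP, mem_filter, mem_univ, true_and] at hp
    obtain ⟨⟨hR, hL, hxz⟩, -⟩ := hp
    refine ⟨univ.filter fun v => Tr H R a b v, hL.2.1.le, fun v => (R, a, b, x, v), ?_⟩
    rintro ⟨R', a', b', x', z'⟩ hq heq
    simp only [PP, mem_filter, mem_univ, true_and] at hq
    simp only [Prod.mk.injEq] at heq
    obtain ⟨rfl, rfl, rfl, rfl⟩ := heq
    refine ⟨z', ?_, rfl⟩
    rw [mem_filter]
    refine ⟨mem_univ _, ?_⟩
    obtain ⟨⟨-, hL', hxz'⟩, hza, hzb, hbz⟩ := hq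
    obtain ⟨hab, hax, hbx, -⟩ := hL'.1
    have hz : z' ∈ ext H R' := hxz'.2.1
    have hz1 : z' ≠ a' := by
      rintro rfl
      exact NA_not_AD hax (AD_symm hxz')
    have hz2 : z' ≠ b' := by
      rintro rfl
      exact NA_not_AD hbx (AD_symm hxz')
    have h1 : NA H R' z' a' := (NA_or_AD hz (NA_left hab) hz1).resolve_right hza
    have h2 : NA H R' z' b' := (NA_or_AD hz (NA_right hab) hz2).resolve_right hzb
    refine ⟨hab, NA_symm h1, NA_symm h2, fun h3 => ?_⟩
    exact NA_not_AD ((NA_insert_iff hab (NA_symm h1) (NA_symm h2)).2 h3) hbz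

end Pool.Agent.H97.TK
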