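import Pool.Agent.H812.Tm.Spec2

/-!
# Laguerre inequality for level functions (`SLag`)
-/

set_option autoImplicit false

open Real Filter Topology Set
open scoped ContDiff

namespace Pool.Agent.H97.Tm

open Pool.Agent.H812.Tm
open Pool.Agent.W811.Stu

namespace LG

def toC (p : P3) : ℂ × ℂ × ℂ := ((p.z : ℂ), (p.y : ℂ), (p.x : ℂ))

theorem cR_toC (p : P3) : cR (toC p) = toC (stepR p) := by
  simp [cR, toC, stepR]

theorem cS_toC (p : P3) : cS (toC p) = toC (stepS p) := by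
  simp [cS, toC, stepS]

theorem cR_iter (k : ℕ) (p : P3) : cR^[k] (toC p) = toC (stepR^[k] p) := by
  induction k generalizing p with
  | zero => rfl
  | succ k ih => rw [Function.iterate_succ_apply, Function.iterate_succ_apply, cR_toC, ih]

theorem corb_toC (d : ℕ → ℕ) (p : P3) (m : ℕ) : corb d (toC p) m = toC (orb d p m) := by
  induction m with
  | zero => rfl
  | succ m ih =>
    show cS (cR^[d m] (corb d (toC p) m)) = toC (stepT (d m) (orb d p m))
    rw [ih, cR_iter, cS_toC]; rfl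

theorem cze_exp (δ φ ϑ : ℝ) (hφ : 0 < sin φ) :
    cze δ φ (Complex.exp (ϑ * Complex.I)) = toC (ze δ (cos φ, ϑ)) := by
  have h1 : Complex.exp (ϑ * Complex.I) = Complex.cos ϑ + Complex.sin ϑ * Complex.I :=
    Complex.exp_mul_I ϑ
  have h2 : (Complex.exp (ϑ * Complex.I))⁻¹ = Complex.cos ϑ - Complex.sin ϑ * Complex.I := by
    rw [← Complex.exp_neg, ← neg_mul, Complex.exp_mul_I, Complex.cos_neg, Complex.sin_neg]; ring
  have h3 : Complex.exp (φ * Complex.I) = Complex.cos φ + Complex.sin φ * Complex.I :=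
    Complex.exp_mul_I φ
  have h4 : Complex.exp (-(φ * Complex.I)) = Complex.cos φ - Complex.sin φ * Complex.I := by
    rw [← neg_mul, Complex.exp_mul_I, Complex.cos_neg, Complex.sin_neg]; ring
  have h5 : √(1 - cos φ ^ 2) = sin φ := by
    rw [show 1 - cos φ ^ 2 = sin φ ^ 2 by nlinarith [sin_sq_add_cos_sq φ]]
    exact Real.sqrt_sq hφ.le
  unfold cze ze toC
  simp only [h2, h4, h5]
  refine Prod.ext rfl (Prod.ext ?_ ?_)
  · simp only [h1]
    push_cast
    ring
  · simp only [h1, h3]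
    push_cast
    ring_nf
    rw [Complex.I_sq]
    ring

theorem onS_ze (δ : ℝ) (v : ℝ × ℝ) (hv : v ∈ U) : OnS δ (ze δ v) := by
  have h1 : v.1 ^ 2 < 1 := by
    have : |v.1| < 1 := hv
    rw [← sq_abs]; nlinarith [abs_nonneg v.1]
  have h2 : Bf δ v.1 ^ 2 * (1 - v.1 ^ 2) = 1 + δ ^ 2 - v.1 ^ 2 := by
    unfold Bf
    rw [Real.sq_sqrt (div_nonneg (by nlinarith [sq_nonneg δ]) (by linarith)),
      div_mul_cancel₀ _ (by linarith : (1 - v.1 ^ 2) ≠ 0)]
  have h3 : √(1 - v.1 ^ 2) ^ 2 = 1 - v.1 ^ 2 := Real.sq_sqrt (by linarith)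
  unfold OnS ze
  simp only
  have h4 := sin_sq_add_cos_sq v.2
  set B := Bf δ v.1
  set w := √(1 - v.1 ^ 2)
  set z := v.1
  set c := cos v.2
  set s := sin v.2
  have e : (B * (z * c + w * s)) ^ 2 + (B * c) ^ 2 + z ^ 2 -
      2 * (B * (z * c + w * s)) * (B * c) * z =
      B ^ 2 * w ^ 2 * s ^ 2 + B ^ 2 * (1 - z ^ 2) * c ^ 2 + z ^ 2 := by ring
  rw [e, h3]
  have e2 : B ^ 2 * (1 - z ^ 2) * s ^ 2 + B ^ 2 * (1 - z ^ 2) * c ^ 2 =
      B ^ 2 * (1 - z ^ 2) * (s ^ 2 + c ^ 2) := by ring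
  rw [e2, h4, h2]
  ring

theorem isOpen_U : IsOpen U := isOpen_lt (continuous_fst.abs) continuous_const

theorem hasDerivAt_dt {g : ℝ × ℝ → ℝ} {z t : ℝ} (hg : DifferentiableAt ℝ g (z, t)) :
    HasDerivAt (fun s => g (z, s)) (dt g (z, t)) t := by
  have h1 : HasDerivAt (fun s : ℝ => (z, s)) ((0 : ℝ), (1 : ℝ)) t :=
    (hasDerivAt_const t z).prodMk (hasDerivAt_id t)
  exact hg.hasFDerivAt.comp_hasDerivAt t h1

theorem dt_contDiffOn {g : ℝ × ℝ → ℝ} (hg : ContDiffOn ℝ ∞ g U) : ContDiffOn ℝ ∞ (dt g) U := by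
  have h1 : ContDiffOn ℝ ∞ (fderiv ℝ g) U := hg.fderiv_of_isOpen isOpen_U le_rfl
  exact h1.clm_apply contDiffOn_const

end LG

open LG in
theorem tSLag (hA1 : SLagA1) (hA2 : SLagA2) (hB1 : SLagB1) (hB2 : SLagB2) (hDt : SDt) : SLag := by
  intro δ hδ d hd m hm v hv hlt
  obtain ⟨hsm, hper, hdt⟩ := hDt δ d m
  have hv1 : |v.1| < 1 := hv
  have hv2 := abs_lt.1 hv1
  set φ := arccos v.1 with hφ
  have hcos : cos φ = v.1 := cos_arccos hv2.1.le hv2.2.le
  have hsin : 0 < sin φ := by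
    apply sin_pos_of_pos_of_lt_pi
    · exact arccos_pos.2 hv2.2
    · rw [hφ]; exact arccos_lt_pi.2 hv2.1
  obtain ⟨n, H, hn, hdeg, h0, hH⟩ := hA2 δ φ hsin d hd m
  set f : ℝ → ℝ := fun t => Yf δ d m (v.1, t) with hf
  have hU : ∀ t : ℝ, (v.1, t) ∈ U := fun t => hv
  have hfH : ∀ t : ℝ, (f t : ℂ) * Complex.exp (t * Complex.I) ^ n =
      H.eval (Complex.exp (t * Complex.I)) := by
    intro t
    have h1 := hH (Complex.exp (t * Complex.I)) (Complex.exp_ne_zero _)
    rw [cze_exp δ φ t hsin, corb_toC] at h1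
    rw [← h1, hf, ← hcos]
    rfl
  have hcirc : ∀ u : ℂ, H.eval u = 0 → ‖u‖ = 1 := by
    intro u hu
    have hu0 : u ≠ 0 := by
      rintro rfl
      apply h0
      rw [Polynomial.coeff_zero_eq_eval_zero]; exact hu
    by_contra hcon
    have h1 := hH u hu0
    rw [hu] at h1
    exact (mul_ne_zero (hA1 δ φ hsin d hd m u hu0 hcon) (pow_ne_zero _ hu0)) h1
  have hcc := cc_pos δ
  have hdiff : ∀ t : ℝ, DifferentiableAt ℝ (Yf δ d m) (v.1, t) := fun t =>
    (hsm.differentiableOn (by simp)).differentiableAt (isOpen_U.mem_nhds (hU t))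
  have hdiff2 : ∀ t : ℝ, DifferentiableAt ℝ (dt (Yf δ d m)) (v.1, t) := fun t =>
    ((dt_contDiffOn hsm).differentiableOn (by simp)).differentiableAt (isOpen_U.mem_nhds (hU t))
  have hd1 : deriv f = fun t => dt (Yf δ d m) (v.1, t) := by
    funext t
    exact (hasDerivAt_dt (hdiff t)).deriv
  have hd2 : ∀ t, deriv (deriv f) t = dt (dt (Yf δ d m)) (v.1, t) := by
    intro t
    rw [hd1]
    exact (hasDerivAt_dt (hdiff2 t)).deriv
  have hcrit : ∀ t, |f t| < cc δ → deriv f t ≠ 0 := by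
    intro t ht
    rw [hd1]
    simp only
    rw [hdt _ (hU t)]
    have hlt2 : (orb d (ze δ (v.1, t)) m).y ^ 2 < 1 + δ ^ 2 := by
      rw [← cc_sq, ← sq_abs]
      have : |(orb d (ze δ (v.1, t)) m).y| < cc δ := ht
      exact pow_lt_pow_left₀ this (abs_nonneg _) (by norm_num)
    have hz : (ze δ (v.1, t)).z ^ 2 ≤ 1 := by
      show v.1 ^ 2 ≤ 1
      rw [← sq_abs]; nlinarith [abs_nonneg v.1]
    have h1 := (cmpY (κ := 1) hδ zero_le_one (by have := sq_pos_of_ne_zero hδ; linarith) hd hm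
      (onS_ze δ _ (hU t)) hz hlt2).2.2
    have h2 : 0 < √(1 - v.1 ^ 2) := by
      apply Real.sqrt_pos.2
      rw [← sq_abs]; nlinarith [abs_nonneg v.1]
    exact div_ne_zero (neg_ne_zero.2 h1) h2.ne'
  have hlag : ∀ s : ℝ, |s| < cc δ → ∀ t, (f t - s) * deriv (deriv f) t ≤ (deriv f t) ^ 2 := by
    intro s hs t
    have hlt' : (Polynomial.C (s : ℂ) * Polynomial.X ^ n).natDegree < H.natDegree := by
      rw [hdeg]
      exact lt_of_le_of_lt (Polynomial.natDegree_C_mul_X_pow_le _ _) (by omega)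
    have h1 := hB2 n (H - Polynomial.C (s : ℂ) * Polynomial.X ^ n) (fun t => f t - s) hn
      (by rw [Polynomial.natDegree_sub_eq_left_of_natDegree_lt hlt', hdeg])
      (by
        rw [Polynomial.coeff_sub, Polynomial.coeff_C_mul, Polynomial.coeff_X_pow,
          if_neg (by omega), mul_zero, sub_zero]
        exact h0)
      (by
        intro t
        rw [Polynomial.eval_sub, Polynomial.eval_mul, Polynomial.eval_C, Polynomial.eval_pow,
          Polynomial.eval_X, ← hfH]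
        push_cast
        ring)
      (hB1 n H f (cc δ) hn hdeg h0 hfH hcirc hcc hcrit s hs)
    have e1 : deriv (fun t => f t - s) = deriv f := by
      funext x; exact deriv_sub_const s
    have h2 := h1.2 t
    rw [e1] at h2
    exact h2
  have hcl : ∀ s ∈ Icc (-cc δ) (cc δ), (f v.2 - s) * deriv (deriv f) v.2 ≤ (deriv f v.2) ^ 2 := by
    have hclosed : IsClosed {s : ℝ | (f v.2 - s) * deriv (deriv f) v.2 ≤ (deriv f v.2) ^ 2} :=
      isClosed_le (by fun_prop) continuous_const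
    have hsub : Ioo (-cc δ) (cc δ) ⊆
        {s : ℝ | (f v.2 - s) * deriv (deriv f) v.2 ≤ (deriv f v.2) ^ 2} := fun s hs =>
      hlag s (abs_lt.2 ⟨hs.1, hs.2⟩) v.2
    have := hclosed.closure_subset_iff.2 hsub
    rw [closure_Ioo (by linarith : (-cc δ) ≠ cc δ)] at this
    exact fun s hs => this hs
  have h1 := hcl (cc δ) ⟨by linarith, le_rfl⟩
  have h2 := hcl (-cc δ) ⟨le_rfl, by linarith⟩
  have e0 : Yf δ d m v = f v.2 := rfl
  have e1 : dt (Yf δ d m) v = deriv f v.2 := by rw [hd1]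
  have e2 : dt (dt (Yf δ d m)) v = deriv (deriv f) v.2 := by rw [hd2]
  rw [e0] at hlt
  rw [e0, e1, e2]
  have h3 := abs_lt.1 hlt
  have h4 := neg_abs_le (f v.2)
  have h5 := le_abs_self (f v.2)
  rcases le_total 0 (deriv (deriv f) v.2) with h6 | h6
  · rw [abs_of_nonneg h6]
    nlinarith
  · rw [abs_of_nonpos h6]
    nlinarith

end Pool.Agent.H97.Tm
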