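import Pool.Agent.H812.Tm.Spec2

/-!
# The level functions on an ellipse are Laurent polynomials (`SLagA2`)
-/

set_option autoImplicit false

open Real Filter Topology Set

namespace Pool.Agent.H97.Tm

open Pool.Agent.H812.Tm
open Pool.Agent.W811.Stu

namespace LA2

/-- a Laurent polynomial of order at most `n` -/
structure LPw (n : ℕ) (g : ℂ → ℂ) (H : Polynomial ℂ) : Prop where
  deg : H.natDegree ≤ 2 * n
  ev : ∀ u : ℂ, u ≠ 0 → g u * u ^ n = H.eval u

/-- a Laurent polynomial of exact order `n` -/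
structure LPs (n : ℕ) (g : ℂ → ℂ) (H : Polynomial ℂ) : Prop where
  deg : H.natDegree = 2 * n
  c0 : H.coeff 0 ≠ 0
  ev : ∀ u : ℂ, u ≠ 0 → g u * u ^ n = H.eval u

theorem LPs.w {n : ℕ} {g : ℂ → ℂ} {H : Polynomial ℂ} (h : LPs n g H) : LPw n g H :=
  ⟨h.deg.le, h.ev⟩

/-- the invariant -/
def Inv (p : ℂ → ℂ × ℂ × ℂ) : Prop := ∃ (nz ny : ℕ) (Hz Hy Hx : Polynomial ℂ), 1 ≤ ny ∧
  LPw nz (fun u => (p u).1) Hz ∧ LPs ny (fun u => (p u).2.1) Hy ∧
  LPs (nz + ny) (fun u => (p u).2.2) Hx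

/-- the invariant after at least one step -/
def Inv' (p : ℂ → ℂ × ℂ × ℂ) : Prop := ∃ (nz ny : ℕ) (Hz Hy Hx : Polynomial ℂ), 1 ≤ ny ∧ 1 ≤ nz ∧
  LPs nz (fun u => (p u).1) Hz ∧ LPs ny (fun u => (p u).2.1) Hy ∧
  LPs (nz + ny) (fun u => (p u).2.2) Hx

theorem Inv'.inv {p : ℂ → ℂ × ℂ × ℂ} (h : Inv' p) : Inv p := by
  obtain ⟨nz, ny, Hz, Hy, Hx, h1, _, h3, h4, h5⟩ := h
  exact ⟨nz, ny, Hz, Hy, Hx, h1, h3.w, h4, h5⟩

theorem Inv.R {p : ℂ → ℂ × ℂ × ℂ} (h : Inv p) : Inv' fun u => cR (p u) := by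
  obtain ⟨nz, ny, Hz, Hy, Hx, h1, h2, h3, h4⟩ := h
  refine ⟨nz + ny, ny, Hx, Hy, Polynomial.C 2 * (Hx * Hy) - Hz * Polynomial.X ^ (2 * ny), h1,
    by omega, h4, h3, ?_, ?_, ?_⟩
  · have hx0 : Hx ≠ 0 := by rintro rfl; exact h4.c0 (by simp)
    have hy0 : Hy ≠ 0 := by rintro rfl; exact h3.c0 (by simp)
    have e1 : (Polynomial.C 2 * (Hx * Hy)).natDegree = 2 * (nz + ny + ny) := by
      rw [Polynomial.natDegree_C_mul (by norm_num), Polynomial.natDegree_mul hx0 hy0, h4.deg,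
        h3.deg]
      ring
    have e2 : (Hz * Polynomial.X ^ (2 * ny)).natDegree ≤ 2 * nz + 2 * ny := by
      refine Polynomial.natDegree_mul_le.trans ?_
      rw [Polynomial.natDegree_X_pow]
      have := h2.deg
      omega
    rw [Polynomial.natDegree_sub_eq_left_of_natDegree_lt (by rw [e1]; omega), e1]
  · rw [Polynomial.coeff_sub, Polynomial.coeff_C_mul, Polynomial.mul_coeff_zero,
      Polynomial.mul_coeff_zero, Polynomial.coeff_X_pow, if_neg (by omega), mul_zero, sub_zero]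
    exact mul_ne_zero (by norm_num) (mul_ne_zero h4.c0 h3.c0)
  · intro u hu
    have e1 := h2.ev u hu
    have e2 := h3.ev u hu
    have e3 := h4.ev u hu
    rw [Polynomial.eval_sub, Polynomial.eval_mul, Polynomial.eval_C, Polynomial.eval_mul,
      Polynomial.eval_mul, Polynomial.eval_pow, Polynomial.eval_X, ← e1, ← e2, ← e3]
    show (2 * (p u).2.2 * (p u).2.1 - (p u).1) * u ^ (nz + ny + ny) = _
    ring

theorem Inv'.S {p : ℂ → ℂ × ℂ × ℂ} (h : Inv' p) : Inv' fun u => cS (p u) := by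
  obtain ⟨nz, ny, Hz, Hy, Hx, h1, h2, h3, h4, h5⟩ := h
  refine ⟨ny, nz, Hy, Hz, Hx, h2, h1, h4, h3, ?_⟩
  rw [add_comm ny nz]
  exact h5

theorem Inv.iter {p : ℂ → ℂ × ℂ × ℂ} (h : Inv p) (k : ℕ) :
    Inv' fun u => cR^[k + 1] (p u) := by
  induction k with
  | zero => exact h.R
  | succ k ih =>
    have := ih.inv.R
    have e : (fun u => cR^[k + 1 + 1] (p u)) = fun u => cR (cR^[k + 1] (p u)) := by
      funext u; rw [Function.iterate_succ_apply' cR (k + 1)]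
    rw [e]; exact this

theorem start (δ φ : ℝ) (hφ : 0 < sin φ) : Inv fun u => cze δ φ u := by
  have hB : 0 < Bf δ (cos φ) := by
    unfold Bf
    apply Real.sqrt_pos.2
    have h1 : 1 - cos φ ^ 2 = sin φ ^ 2 := by nlinarith [sin_sq_add_cos_sq φ]
    have h2 : 0 < sin φ ^ 2 := by positivity
    apply div_pos
    · nlinarith [sq_nonneg δ]
    · rw [h1]; exact h2
  have hB' : (Bf δ (cos φ) : ℂ) ≠ 0 := by exact_mod_cast hB.ne'
  have key : ∀ a b : ℂ, a ≠ 0 → b ≠ 0 →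
      LPs 1 (fun u => (Bf δ (cos φ) : ℂ) * (a * u + b * u⁻¹) / 2)
        (Polynomial.C ((Bf δ (cos φ) : ℂ) * a / 2) * Polynomial.X ^ 2 +
          Polynomial.C ((Bf δ (cos φ) : ℂ) * b / 2)) := by
    intro a b ha hb
    refine ⟨?_, ?_, ?_⟩
    · rw [Polynomial.natDegree_add_C, Polynomial.natDegree_C_mul_X_pow]
      exact div_ne_zero (mul_ne_zero hB' ha) (by norm_num)
    · rw [Polynomial.coeff_add, Polynomial.coeff_C_mul, Polynomial.coeff_X_pow, if_neg (by norm_num),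
        mul_zero, zero_add, Polynomial.coeff_C_zero]
      exact div_ne_zero (mul_ne_zero hB' hb) (by norm_num)
    · intro u hu
      rw [Polynomial.eval_add, Polynomial.eval_mul, Polynomial.eval_C, Polynomial.eval_pow,
        Polynomial.eval_X, Polynomial.eval_C, pow_one]
      field_simp
  obtain ⟨Hy, k1⟩ : ∃ H, LPs 1 (fun u => (cze δ φ u).2.1) H := by
    have := key 1 1 one_ne_zero one_ne_zero
    simp only [one_mul] at this
    exact ⟨_, this⟩
  obtain ⟨Hx, k2⟩ : ∃ H, LPs (0 + 1) (fun u => (cze δ φ u).2.2) H :=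
    ⟨_, key (Complex.exp (-(φ * Complex.I))) (Complex.exp (φ * Complex.I))
      (Complex.exp_ne_zero _) (Complex.exp_ne_zero _)⟩
  have k0 : LPw 0 (fun u => (cze δ φ u).1) (Polynomial.C ((cos φ : ℝ) : ℂ)) := by
    refine ⟨by rw [Polynomial.natDegree_C], ?_⟩
    intro u _
    rw [Polynomial.eval_C, pow_zero, mul_one]
    rfl
  exact ⟨0, 1, _, _, _, le_rfl, k0, k1, k2⟩

theorem inv (δ φ : ℝ) (hφ : 0 < sin φ) (d : ℕ → ℕ) (hd : ∀ k, 1 ≤ d k) (m : ℕ) :
    Inv fun u => corb d (cze δ φ u) m := by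
  induction m with
  | zero => exact start δ φ hφ
  | succ m ih =>
    obtain ⟨k, hk⟩ : ∃ k, d m = k + 1 := ⟨d m - 1, by have := hd m; omega⟩
    have h1 := (ih.iter k).S.inv
    have e : (fun u => corb d (cze δ φ u) (m + 1)) =
        fun u => cS (cR^[k + 1] (corb d (cze δ φ u) m)) := by
      funext u
      show cS (cR^[d m] (corb d (cze δ φ u) m)) = _
      rw [hk]
    rw [e]; exact h1

end LA2

open LA2 in
theorem tSLagA2 : SLagA2 := by
  intro δ φ hφ d hd m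
  obtain ⟨nz, ny, Hz, Hy, Hx, h1, _, h3, _⟩ := inv δ φ hφ d hd m
  exact ⟨ny, Hy, h1, h3.deg, h3.c0, h3.ev⟩

end Pool.Agent.H97.Tm
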