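import Pool.Agent.H812.Tm.Spec2

/-!
# Level sets of a real-rooted trigonometric polynomial have maximal cardinality (`SLagB1`)
-/

set_option autoImplicit false

open Real Filter Topology Set

namespace Pool.Agent.H97.Tm

open Pool.Agent.H812.Tm

namespace LB1

/-- from a zero to a point of the level set, through points with small value -/
theorem exists_level {f : ℝ → ℝ} (hd : Differentiable ℝ f) (hper : ∀ t, f (t + 2 * π) = f t)
    {c : ℝ} (hc : 0 < c) (hcrit : ∀ t, |f t| < c → deriv f t ≠ 0) {s : ℝ} (hs : |s| < c)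
    {α : ℝ} (hα : f α = 0) :
    ∃ t, f t = s ∧ ∀ x ∈ uIcc α t, |f x| < c := by
  have hcont : Continuous f := hd.continuous
  have h2π : 0 < 2 * π := by positivity
  -- the right end
  obtain ⟨b, hb1, hb2, hb3⟩ : ∃ b, α < b ∧ c ≤ |f b| ∧ ∀ t, α ≤ t → t < b → |f t| < c := by
    set S : Set ℝ := {t | α ≤ t ∧ c ≤ |f t|} with hS
    have hcl : IsClosed S := by
      apply IsClosed.inter
      · exact isClosed_Ici
      · exact isClosed_le continuous_const hcont.abs
    have hbd : BddBelow S := ⟨α, fun t ht => ht.1⟩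
    have hne : S.Nonempty := by
      by_contra hemp
      rw [Set.not_nonempty_iff_eq_empty] at hemp
      obtain ⟨ξ, hξ, hξ'⟩ := exists_deriv_eq_zero (f := f) (a := α) (b := α + 2 * π) (by linarith)
        hcont.continuousOn (by rw [hper])
      refine hcrit ξ ?_ hξ'
      by_contra hcon
      have : ξ ∈ S := ⟨hξ.1.le, not_lt.1 hcon⟩
      rw [hemp] at this
      exact this
    have hmem := hcl.csInf_mem hne hbd
    refine ⟨sInf S, ?_, hmem.2, ?_⟩
    · refine lt_of_le_of_ne hmem.1 fun h => ?_
      have := hmem.2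
      rw [← h, hα, abs_zero] at this
      linarith
    · intro t ht htb
      by_contra hcon
      have : sInf S ≤ t := csInf_le hbd ⟨ht, not_lt.1 hcon⟩
      linarith
  obtain ⟨a, ha1, ha2, ha3⟩ : ∃ a, a < α ∧ c ≤ |f a| ∧ ∀ t, t ≤ α → a < t → |f t| < c := by
    set S : Set ℝ := {t | t ≤ α ∧ c ≤ |f t|} with hS
    have hcl : IsClosed S := by
      apply IsClosed.inter
      · exact isClosed_Iic
      · exact isClosed_le continuous_const hcont.abs
    have hbd : BddAbove S := ⟨α, fun t ht => ht.1⟩
    have hne : S.Nonempty := by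
      by_contra hemp
      rw [Set.not_nonempty_iff_eq_empty] at hemp
      obtain ⟨ξ, hξ, hξ'⟩ := exists_deriv_eq_zero (f := f) (a := α - 2 * π) (b := α) (by linarith)
        hcont.continuousOn (by
          have := hper (α - 2 * π)
          rw [sub_add_cancel] at this
          exact this.symm)
      refine hcrit ξ ?_ hξ'
      by_contra hcon
      have : ξ ∈ S := ⟨hξ.2.le, not_lt.1 hcon⟩
      rw [hemp] at this
      exact this
    have hmem := hcl.csSup_mem hne hbd
    refine ⟨sSup S, ?_, hmem.2, ?_⟩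
    · refine lt_of_le_of_ne hmem.1 fun h => ?_
      have := hmem.2
      rw [h, hα, abs_zero] at this
      linarith
    · intro t ht htb
      by_contra hcon
      have : t ≤ sSup S := le_csSup hbd ⟨ht, not_lt.1 hcon⟩
      linarith
  have hin : ∀ t ∈ Ioo a b, |f t| < c := by
    intro t ht
    rcases le_total α t with h | h
    · exact hb3 t h ht.2
    · exact ha3 t h ht.1
  have hαm : α ∈ Ioo a b := ⟨ha1, hb1⟩
  have hsgn : (∀ x ∈ Ioo a b, deriv f x < 0) ∨ ∀ x ∈ Ioo a b, 0 < deriv f x :=
    hasDerivWithinAt_forall_lt_or_forall_gt_of_forall_ne (convex_Ioo a b)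
      (fun x _ => (hd x).hasDerivAt.hasDerivWithinAt) fun x hx => hcrit x (hin x hx)
  have hint : interior (Icc a b) = Ioo a b := interior_Icc
  have hsab := abs_lt.1 hs
  have hiv : ∃ t ∈ Icc a b, f t = s := by
    rcases hsgn with h | h
    · have hmono := strictAntiOn_of_deriv_neg (convex_Icc a b) hcont.continuousOn
        (by rw [hint]; exact h)
      have h1 : f α < f a := hmono ⟨le_rfl, (ha1.trans hb1).le⟩ ⟨ha1.le, hb1.le⟩ ha1
      have h2 : f b < f α := hmono ⟨ha1.le, hb1.le⟩ ⟨(ha1.trans hb1).le, le_rfl⟩ hb1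
      rw [hα] at h1 h2
      rw [abs_of_pos h1] at ha2
      rw [abs_of_neg h2] at hb2
      obtain ⟨t, ht, hts⟩ := intermediate_value_Icc' (ha1.trans hb1).le hcont.continuousOn
        (show s ∈ Icc (f b) (f a) from ⟨by linarith, by linarith⟩)
      exact ⟨t, ht, hts⟩
    · have hmono := strictMonoOn_of_deriv_pos (convex_Icc a b) hcont.continuousOn
        (by rw [hint]; exact h)
      have h1 : f a < f α := hmono ⟨le_rfl, (ha1.trans hb1).le⟩ ⟨ha1.le, hb1.le⟩ ha1
      have h2 : f α < f b := hmono ⟨ha1.le, hb1.le⟩ ⟨(ha1.trans hb1).le, le_rfl⟩ hb1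
      rw [hα] at h1 h2
      rw [abs_of_neg h1] at ha2
      rw [abs_of_pos h2] at hb2
      obtain ⟨t, ht, hts⟩ := intermediate_value_Icc (ha1.trans hb1).le hcont.continuousOn
        (show s ∈ Icc (f a) (f b) from ⟨by linarith, by linarith⟩)
      exact ⟨t, ht, hts⟩
  obtain ⟨t, ht, hts⟩ := hiv
  have hta : a ≠ t := fun h => by rw [h, hts] at ha2; linarith
  have htb : t ≠ b := fun h => by rw [← h, hts] at hb2; linarith
  have htm : t ∈ Ioo a b := ⟨lt_of_le_of_ne ht.1 hta, lt_of_le_of_ne ht.2 htb⟩
  refine ⟨t, hts, fun x hx => hin x ?_⟩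
  exact (ordConnected_Ioo.uIcc_subset hαm htm) hx

/-- two zeros connected through points with small value coincide -/
theorem eq_of_small {f : ℝ → ℝ} (hd : Differentiable ℝ f) {c : ℝ}
    (hcrit : ∀ t, |f t| < c → deriv f t ≠ 0) {α β t : ℝ} (hα : f α = 0) (hβ : f β = 0)
    (h1 : ∀ x ∈ uIcc α t, |f x| < c) (h2 : ∀ x ∈ uIcc β t, |f x| < c) : α = β := by
  have key : ∀ α β : ℝ, f α = 0 → f β = 0 → (∀ x ∈ uIcc α t, |f x| < c) →
      (∀ x ∈ uIcc β t, |f x| < c) → ¬ α < β := by
    intro α β hα hβ h1 h2 hlt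
    obtain ⟨ξ, hξ, hξ'⟩ := exists_deriv_eq_zero (f := f) hlt hd.continuous.continuousOn
      (by rw [hα, hβ])
    refine hcrit ξ ?_ hξ'
    have h3 : ξ ∈ uIcc α t ∪ uIcc t β := uIcc_subset_uIcc_union_uIcc
      (by rw [uIcc_of_le hlt.le]; exact ⟨hξ.1.le, hξ.2.le⟩)
    rcases h3 with h3 | h3
    · exact h1 ξ h3
    · rw [uIcc_comm] at h3; exact h2 ξ h3
  rcases lt_trichotomy α β with h | h | h
  · exact absurd h (key α β hα hβ h1 h2)
  · exact h
  · exact absurd h (key β α hβ hα h2 h1)

theorem deriv_rel {n : ℕ} {H : Polynomial ℂ} {f : ℝ → ℝ}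
    (hf : ∀ ϑ : ℝ, (f ϑ : ℂ) * Complex.exp (ϑ * Complex.I) ^ n =
      H.eval (Complex.exp (ϑ * Complex.I))) :
    Differentiable ℝ f ∧ ∀ t : ℝ, ((deriv f t : ℝ) : ℂ) * Complex.exp (t * Complex.I) ^ n +
      (f t : ℂ) * (n * Complex.exp (t * Complex.I) ^ (n - 1) *
        (Complex.exp (t * Complex.I) * Complex.I)) =
      H.derivative.eval (Complex.exp (t * Complex.I)) * (Complex.exp (t * Complex.I) * Complex.I) := by
  have he : ∀ t : ℝ, HasDerivAt (fun x : ℝ => Complex.exp (x * Complex.I))
      (Complex.exp (t * Complex.I) * Complex.I) t := by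
    intro t
    have h1 : HasDerivAt (fun x : ℝ => (x : ℂ) * Complex.I) (1 * Complex.I) t :=
      (Complex.ofRealCLM.hasDerivAt (x := t)).mul_const Complex.I
    rw [one_mul] at h1
    exact h1.cexp
  have hne : ∀ t : ℝ, Complex.exp (t * Complex.I) ^ n ≠ 0 := fun t =>
    pow_ne_zero _ (Complex.exp_ne_zero _)
  have hH : ∀ t : ℝ, HasDerivAt (fun x : ℝ => H.eval (Complex.exp (x * Complex.I)))
      (H.derivative.eval (Complex.exp (t * Complex.I)) *
        (Complex.exp (t * Complex.I) * Complex.I)) t := fun t =>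
    HasDerivAt.comp (h₂ := fun w : ℂ => H.eval w) t (H.hasDerivAt (Complex.exp (t * Complex.I))) (he t)
  have hp : ∀ t : ℝ, HasDerivAt (fun x : ℝ => Complex.exp (x * Complex.I) ^ n)
      (n * Complex.exp (t * Complex.I) ^ (n - 1) *
        (Complex.exp (t * Complex.I) * Complex.I)) t := fun t => (he t).pow n
  have hF : ∀ t : ℝ, (f t : ℂ) = H.eval (Complex.exp (t * Complex.I)) /
      Complex.exp (t * Complex.I) ^ n := fun t => by
    rw [eq_div_iff (hne t)]; exact hf t
  have hfd : Differentiable ℝ f := by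
    intro t
    have h1 := ((hH t).div (hp t) (hne t))
    have h2 := h1.congr_of_eventuallyEq (f₁ := fun x : ℝ => (f x : ℂ))
      (Eventually.of_forall fun x => hF x)
    have h3 := (Complex.reCLM.hasFDerivAt.comp_hasDerivAt t h2)
    exact h3.differentiableAt
  refine ⟨hfd, fun t => ?_⟩
  have h1 : HasDerivAt (fun x : ℝ => (f x : ℂ)) ((deriv f t : ℝ) : ℂ) t :=
    (hfd t).hasDerivAt.ofReal_comp
  have h2 := h1.mul (hp t)
  have h3 : (fun x : ℝ => (f x : ℂ)) * (fun x : ℝ => Complex.exp (x * Complex.I) ^ n) =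
      fun x : ℝ => H.eval (Complex.exp (x * Complex.I)) := by
    funext x; exact hf x
  rw [h3] at h2
  exact h2.unique (hH t)

end LB1

open LB1 in
theorem tSLagB1 : SLagB1 := by
  intro n H f c hn hdeg h0 hf hcirc hc hcrit s hs
  obtain ⟨hfd, hrel⟩ := deriv_rel hf
  have hper : Function.Periodic f (2 * π) := by
    intro t
    have h1 : Complex.exp (((t + 2 * π : ℝ) : ℂ) * Complex.I) = Complex.exp (t * Complex.I) := by
      push_cast
      rw [add_mul, Complex.exp_add, Complex.exp_two_pi_mul_I, mul_one]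
    have h2 := hf (t + 2 * π)
    rw [h1, ← hf t] at h2
    have h3 := mul_right_cancel₀ (pow_ne_zero _ (Complex.exp_ne_zero _)) h2
    exact_mod_cast h3
  have hH0 : H ≠ 0 := by
    rintro rfl
    simp at h0
  -- roots as angles
  have hang : ∀ u : ℂ, ‖u‖ = 1 → Complex.exp (u.arg * Complex.I) = u := by
    intro u hu
    have := Complex.norm_mul_exp_arg_mul_I u
    rw [hu, Complex.ofReal_one, one_mul] at this
    exact this
  have hzero : ∀ u : ℂ, H.eval u = 0 → f u.arg = 0 := by
    intro u hu
    have h1 := hf u.arg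
    rw [hang u (hcirc u hu), hu] at h1
    have hu0 : u ≠ 0 := fun h => by
      have := hcirc u hu
      rw [h, norm_zero] at this
      exact zero_ne_one this
    have := (mul_eq_zero.1 h1).resolve_right (pow_ne_zero _ hu0)
    exact_mod_cast this
  -- the roots are simple
  have hnodup : H.roots.Nodup := by
    classical
    rw [Multiset.nodup_iff_count_le_one]
    intro u
    rw [Polynomial.count_roots]
    by_contra hcon
    push Not at hcon
    obtain ⟨h1, h2⟩ := (Polynomial.one_lt_rootMultiplicity_iff_isRoot hH0).1 hcon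
    rw [Polynomial.IsRoot.def] at h1 h2
    have h3 := hrel u.arg
    rw [hang u (hcirc u h1), hzero u h1, h2] at h3
    have hu0 : u ≠ 0 := fun h => by
      have := hcirc u h1
      rw [h, norm_zero] at this
      exact zero_ne_one this
    simp only [Complex.ofReal_zero, zero_mul, add_zero] at h3
    have h4 := (mul_eq_zero.1 h3).resolve_right (pow_ne_zero _ hu0)
    refine hcrit u.arg ?_ (by exact_mod_cast h4)
    rw [hzero u h1, abs_zero]
    exact hc
  have hcard : H.roots.toFinset.card = 2 * n := by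
    rw [Multiset.toFinset_card_of_nodup hnodup, ← hdeg]
    exact (Polynomial.splits_iff_card_roots.1 (IsAlgClosed.splits H))
  set G : Polynomial ℂ := H - Polynomial.C (s : ℂ) * Polynomial.X ^ n with hG
  have hGdeg : G.natDegree ≤ 2 * n := by
    rw [hG]
    refine (Polynomial.natDegree_sub_le _ _).trans ?_
    rw [hdeg]
    refine max_le le_rfl ?_
    refine (Polynomial.natDegree_C_mul_X_pow_le _ _).trans (by omega)
  have hG0 : G ≠ 0 := by
    intro h
    have h1 : G.coeff (2 * n) = 0 := by rw [h]; simp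
    rw [hG, Polynomial.coeff_sub, Polynomial.coeff_C_mul, Polynomial.coeff_X_pow,
      if_neg (by omega), mul_zero, sub_zero, ← hdeg] at h1
    exact hH0 (Polynomial.leadingCoeff_eq_zero.1 h1)
  -- the map
  have hex : ∀ u ∈ H.roots.toFinset, ∃ t : ℝ, f t = s ∧ ∀ x ∈ uIcc u.arg t, |f x| < c := by
    intro u hu
    have hu' : H.eval u = 0 := by
      rw [Multiset.mem_toFinset, Polynomial.mem_roots hH0] at hu
      exact hu
    exact exists_level hfd hper hc hcrit hs (hzero u hu')
  choose! T hT1 hT2 using hex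
  have hmaps : ∀ u ∈ H.roots.toFinset, Complex.exp (T u * Complex.I) ∈ G.roots.toFinset := by
    intro u hu
    rw [Multiset.mem_toFinset, Polynomial.mem_roots hG0, Polynomial.IsRoot.def, hG,
      Polynomial.eval_sub, Polynomial.eval_mul, Polynomial.eval_C, Polynomial.eval_pow,
      Polynomial.eval_X, ← hf, hT1 u hu, sub_self]
  have hinj : Set.InjOn (fun u => Complex.exp (T u * Complex.I)) (H.roots.toFinset : Set ℂ) := by
    intro u hu v hv huv
    have hu' := Finset.mem_coe.1 hu
    have hv' := Finset.mem_coe.1 hv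
    have hHu : H.eval u = 0 := by
      rw [Multiset.mem_toFinset, Polynomial.mem_roots hH0] at hu'
      exact hu'
    have hHv : H.eval v = 0 := by
      rw [Multiset.mem_toFinset, Polynomial.mem_roots hH0] at hv'
      exact hv'
    obtain ⟨k, hk⟩ := Complex.exp_eq_exp_iff_exists_int.1 huv
    have hk' : T u = T v + k * (2 * π) := by
      have h1 : (T u : ℂ) * Complex.I = ((T v + k * (2 * π) : ℝ) : ℂ) * Complex.I := by
        rw [hk]; push_cast; ring
      have h2 := mul_right_cancel₀ Complex.I_ne_zero h1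
      exact_mod_cast h2
    have hpk : ∀ x, f (x + k * (2 * π)) = f x := fun x => by
      have := hper.int_mul k x
      exact this
    have h3 : u.arg = v.arg + k * (2 * π) := by
      refine eq_of_small hfd hcrit (t := T u) (hzero u hHu) (by rw [hpk]; exact hzero v hHv)
        (hT2 u hu') ?_
      intro x hx
      have h4 : x - k * (2 * π) ∈ uIcc v.arg (T v) := by
        rw [hk'] at hx
        have := (Set.preimage_add_const_uIcc (k * (2 * π)) (v.arg + k * (2 * π))
          (T v + k * (2 * π)))
        rw [add_sub_cancel_right, add_sub_cancel_right] at this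
        rw [← this]
        show (x - k * (2 * π)) + k * (2 * π) ∈ uIcc (v.arg + k * (2 * π)) (T v + k * (2 * π))
        rw [sub_add_cancel]
        exact hx
      have h5 := hT2 v hv' _ h4
      have h6 := hpk (x - k * (2 * π))
      rw [sub_add_cancel] at h6
      rwa [h6]
    rw [← hang u (hcirc u hHu), ← hang v (hcirc v hHv), h3]
    have : (((v.arg + k * (2 * π) : ℝ) : ℂ)) * Complex.I = v.arg * Complex.I +
        k * (2 * π * Complex.I) := by push_cast; ring
    rw [this, Complex.exp_add, Complex.exp_int_mul_two_pi_mul_I, mul_one]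
  have himg : H.roots.toFinset.image (fun u => Complex.exp (T u * Complex.I)) =
      G.roots.toFinset := by
    apply Finset.eq_of_subset_of_card_le
    · intro w hw
      obtain ⟨u, hu, rfl⟩ := Finset.mem_image.1 hw
      exact hmaps u hu
    · rw [Finset.card_image_of_injOn hinj, hcard]
      exact (Multiset.toFinset_card_le _).trans ((Polynomial.card_roots' G).trans hGdeg)
  intro u hu
  have hu1 : u ∈ G.roots.toFinset := by
    rw [Multiset.mem_toFinset, Polynomial.mem_roots hG0]; exact hu
  rw [← himg] at hu1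
  obtain ⟨w, _, rfl⟩ := Finset.mem_image.1 hu1
  exact Complex.norm_exp_ofReal_mul_I _

end Pool.Agent.H97.Tm
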