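import Pool.Agent.H812.Tm.Spec2

/-!
# Laguerre inequality for trigonometric polynomials with real zeros (`SLagB2`)
-/

set_option autoImplicit false

open Real Filter Topology Set
open scoped ContDiff

namespace Pool.Agent.H97.Tm

open Pool.Agent.H812.Tm

namespace LB2

/-- smooth functions that satisfy the Laguerre inequality -/
def Lg (g : ℝ → ℝ) : Prop := ContDiff ℝ ∞ g ∧ ∀ t, g t * deriv (deriv g) t ≤ (deriv g t) ^ 2

theorem Lg.const (a : ℝ) : Lg fun _ => a := by
  refine ⟨contDiff_const, fun t => ?_⟩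
  have h : deriv (fun _ : ℝ => a) = fun _ => 0 := by funext x; simp
  rw [h]
  simp

theorem Lg.mul {g h : ℝ → ℝ} (hg : Lg g) (hh : Lg h) : Lg fun t => g t * h t := by
  refine ⟨hg.1.mul hh.1, fun t => ?_⟩
  have g1 := (contDiff_infty_iff_deriv.1 hg.1)
  have h1 := (contDiff_infty_iff_deriv.1 hh.1)
  have g2 := (contDiff_infty_iff_deriv.1 g1.2)
  have h2 := (contDiff_infty_iff_deriv.1 h1.2)
  have e1 : deriv (fun t => g t * h t) = fun t => deriv g t * h t + g t * deriv h t := by
    funext x
    exact deriv_fun_mul (g1.1 x) (h1.1 x)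
  have e2 : deriv (deriv fun t => g t * h t) t =
      (deriv (deriv g) t * h t + deriv g t * deriv h t) +
      (deriv g t * deriv h t + g t * deriv (deriv h) t) := by
    rw [e1]
    have d1 : DifferentiableAt ℝ (fun t => deriv g t * h t) t := (g2.1 t).mul (h1.1 t)
    have d2 : DifferentiableAt ℝ (fun t => g t * deriv h t) t := (g1.1 t).mul (h2.1 t)
    rw [deriv_fun_add d1 d2, deriv_fun_mul (g2.1 t) (h1.1 t), deriv_fun_mul (g1.1 t) (h2.1 t)]
  rw [e2, e1]
  have hg2 := hg.2 t
  have hh2 := hh.2 t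
  have k1 := mul_le_mul_of_nonneg_left hg2 (sq_nonneg (h t))
  have k2 := mul_le_mul_of_nonneg_left hh2 (sq_nonneg (g t))
  nlinarith

theorem Lg.sin (α : ℝ) : Lg fun t => Real.sin ((t - α) / 2) := by
  have d1 : ∀ t : ℝ, HasDerivAt (fun t : ℝ => (t - α) / 2) (1 / 2) t := fun t =>
    ((hasDerivAt_id t).sub_const α).div_const 2
  refine ⟨?_, fun t => ?_⟩
  · exact Real.contDiff_sin.comp ((contDiff_id.sub contDiff_const).div_const 2)
  · have e1 : deriv (fun t => Real.sin ((t - α) / 2)) = fun t => Real.cos ((t - α) / 2) * (1 / 2) := by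
      funext x
      exact (d1 x).sin.deriv
    have e2 : deriv (deriv fun t => Real.sin ((t - α) / 2)) t =
        (-Real.sin ((t - α) / 2) * (1 / 2)) * (1 / 2) := by
      rw [e1]
      exact ((d1 t).cos.mul_const (1 / 2)).deriv
    rw [e2, e1]
    nlinarith [sq_nonneg (Real.sin ((t - α) / 2)), sq_nonneg (Real.cos ((t - α) / 2))]

theorem Lg.prod (S : Multiset ℝ) : Lg fun t => (S.map fun α => Real.sin ((t - α) / 2)).prod := by
  induction S using Multiset.induction_on with
  | empty => simpa using Lg.const 1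
  | cons a S ih =>
    simp only [Multiset.map_cons, Multiset.prod_cons]
    exact (Lg.sin a).mul ih

theorem factor (ϑ α : ℝ) : Complex.exp (ϑ * Complex.I) - Complex.exp (α * Complex.I) =
    Complex.exp (ϑ / 2 * Complex.I) * (2 * Complex.I * Complex.exp (α / 2 * Complex.I)) *
      ((Real.sin ((ϑ - α) / 2) : ℝ) : ℂ) := by
  have h1 : Complex.exp (ϑ * Complex.I) = Complex.exp (ϑ / 2 * Complex.I) ^ 2 := by
    rw [← Complex.exp_nat_mul]; congr 1; push_cast; ring
  have h2 : Complex.exp (α * Complex.I) = Complex.exp (α / 2 * Complex.I) ^ 2 := by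
    rw [← Complex.exp_nat_mul]; congr 1; push_cast; ring
  have h3 : ((Real.sin ((ϑ - α) / 2) : ℝ) : ℂ) =
      (Complex.exp (-(((ϑ - α) / 2 : ℝ) : ℂ) * Complex.I) -
        Complex.exp ((((ϑ - α) / 2 : ℝ) : ℂ) * Complex.I)) * Complex.I / 2 := by
    rw [Complex.ofReal_sin]; rfl
  have h4 : Complex.exp ((((ϑ - α) / 2 : ℝ) : ℂ) * Complex.I) =
      Complex.exp (ϑ / 2 * Complex.I) / Complex.exp (α / 2 * Complex.I) := by
    rw [← Complex.exp_sub]; congr 1; push_cast; ring
  have h5 : Complex.exp (-(((ϑ - α) / 2 : ℝ) : ℂ) * Complex.I) =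
      Complex.exp (α / 2 * Complex.I) / Complex.exp (ϑ / 2 * Complex.I) := by
    rw [← Complex.exp_sub]; congr 1; push_cast; ring
  rw [h1, h2, h3, h4, h5]
  have e1 := Complex.exp_ne_zero (ϑ / 2 * Complex.I)
  have e2 := Complex.exp_ne_zero (α / 2 * Complex.I)
  field_simp
  rw [Complex.I_sq]
  ring

end LB2

open LB2 in
theorem tSLagB2 : SLagB2 := by
  intro n H f hn hdeg h0 hf hcirc
  have hang : ∀ u : ℂ, ‖u‖ = 1 → Complex.exp (u.arg * Complex.I) = u := by
    intro u hu
    have := Complex.norm_mul_exp_arg_mul_I u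
    rw [hu, Complex.ofReal_one, one_mul] at this
    exact this
  have hH0 : H ≠ 0 := by
    rintro rfl
    simp at h0
  have hcard : H.roots.card = 2 * n := by
    rw [← hdeg]
    exact (Polynomial.splits_iff_card_roots.1 (IsAlgClosed.splits H))
  set B : ℂ := H.leadingCoeff *
    (H.roots.map fun r => 2 * Complex.I * Complex.exp (r.arg / 2 * Complex.I)).prod with hB
  have hfe : ∀ ϑ : ℝ, (f ϑ : ℂ) =
      B * (((H.roots.map Complex.arg).map fun α => Real.sin ((ϑ - α) / 2)).prod : ℝ) := by
    intro ϑ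
    have h1 : H.eval (Complex.exp (ϑ * Complex.I)) = H.leadingCoeff *
        (H.roots.map fun r => Complex.exp (ϑ * Complex.I) - r).prod := by
      conv_lhs => rw [(IsAlgClosed.splits H).eq_prod_roots]
      rw [Polynomial.eval_mul, Polynomial.eval_C, Polynomial.eval_multiset_prod, Multiset.map_map]
      simp [Function.comp_def]
    have h2 : (H.roots.map fun r => Complex.exp (ϑ * Complex.I) - r) = H.roots.map fun r =>
        Complex.exp (ϑ / 2 * Complex.I) * (2 * Complex.I * Complex.exp (r.arg / 2 * Complex.I)) *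
          ((Real.sin ((ϑ - r.arg) / 2) : ℝ) : ℂ) := by
      refine Multiset.map_congr rfl fun r hr => ?_
      have hr' : H.eval r = 0 := by
        rw [Polynomial.mem_roots hH0] at hr; exact hr
      rw [← factor, hang r (hcirc r hr')]
    have h3 : (H.roots.map fun _ : ℂ => Complex.exp (ϑ / 2 * Complex.I)).prod =
        Complex.exp (ϑ * Complex.I) ^ n := by
      rw [Multiset.map_const', Multiset.prod_replicate, hcard, pow_mul, ← Complex.exp_nat_mul]
      congr 2
      push_cast; ring
    have h4 : (H.roots.map fun r : ℂ => ((Real.sin ((ϑ - r.arg) / 2) : ℝ) : ℂ)).prod =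
        (((H.roots.map Complex.arg).map fun α => Real.sin ((ϑ - α) / 2)).prod : ℝ) := by
      rw [Multiset.map_map]
      have := (Complex.ofRealHom.map_multiset_prod
        (H.roots.map ((fun α => Real.sin ((ϑ - α) / 2)) ∘ Complex.arg)))
      rw [Multiset.map_map] at this
      exact this.symm
    have h5 := hf ϑ
    rw [h1, h2, Multiset.prod_map_mul, Multiset.prod_map_mul, h3, h4] at h5
    have h6 : Complex.exp (ϑ * Complex.I) ^ n ≠ 0 := pow_ne_zero _ (Complex.exp_ne_zero _)
    apply mul_right_cancel₀ h6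
    rw [h5, hB]
    ring
  have hfe' : f = fun ϑ => B.re * ((H.roots.map Complex.arg).map fun α =>
      Real.sin ((ϑ - α) / 2)).prod := by
    funext ϑ
    have := congrArg Complex.re (hfe ϑ)
    rw [Complex.ofReal_re, Complex.re_mul_ofReal] at this
    exact this
  have := (Lg.const B.re).mul (Lg.prod (H.roots.map Complex.arg))
  rw [hfe']
  exact this

end Pool.Agent.H97.Tm
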