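import Pool.Agent.H867.FT.Gen5

set_option autoImplicit false

namespace Pool.Agent.H97.FT867TEQ
open Pool.Agent.H867.FT

section
variable {S K : Type} [CommRing S] [Field K] [Algebra S K]

theorem mem_dv {N : Submodule S K} {x : K} :
    x ∈ 1 / N ↔ ∀ y ∈ N, x * y ∈ (1 : Submodule S K) :=
  Submodule.mem_div_iff_forall_mul_mem

theorem dv_anti {N N' : Submodule S K} (h : N ≤ N') : 1 / N' ≤ 1 / N := by
  intro x hx
  rw [mem_dv] at hx ⊢
  exact fun y hy => hx y (h hy)

theorem le_dd (N : Submodule S K) : N ≤ 1 / (1 / N) := by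
  intro x hx
  rw [mem_dv]
  intro y hy
  rw [mem_dv] at hy
  rw [mul_comm]
  exact hy x hx

theorem ddd (N : Submodule S K) : 1 / (1 / (1 / N)) = 1 / N :=
  le_antisymm (dv_anti (le_dd N)) (le_dd (1 / N))

theorem dv_span {t : K} (ht : t ≠ 0) :
    1 / Submodule.span S {t} = Submodule.span S {t⁻¹} := by
  ext x
  rw [mem_dv]
  constructor
  · intro h
    obtain ⟨r, hr⟩ := Submodule.mem_one.mp (h t (Submodule.mem_span_singleton_self t))
    rw [Submodule.mem_span_singleton]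
    refine ⟨r, ?_⟩
    rw [Algebra.smul_def, hr, mul_assoc, mul_inv_cancel₀ ht, mul_one]
  · intro h y hy
    obtain ⟨r, rfl⟩ := Submodule.mem_span_singleton.mp h
    obtain ⟨s, rfl⟩ := Submodule.mem_span_singleton.mp hy
    rw [Submodule.mem_one]
    refine ⟨r * s, ?_⟩
    rw [Algebra.smul_def, Algebra.smul_def, map_mul]
    field_simp

theorem span_pow' (t : K) (n : ℕ) : Submodule.span S {t} ^ n = Submodule.span S {t ^ n} := by
  rw [Submodule.span_pow, Set.singleton_pow]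

theorem pow_ne {C : Submodule S K} (hC : C ≠ ⊥) (n : ℕ) : C ^ n ≠ ⊥ := by
  obtain ⟨x, hx, hx0⟩ := Submodule.exists_mem_ne_zero_of_ne_bot hC
  have h : ∀ n : ℕ, x ^ n ∈ C ^ n := by
    intro n
    induction n with
    | zero =>
      rw [pow_zero, pow_zero]
      exact Submodule.mem_one.mpr ⟨1, map_one _⟩
    | succ n ih =>
      rw [pow_succ, pow_succ]
      exact Submodule.mul_mem_mul ih hx
  intro h0
  have h1 := h n
  rw [h0, Submodule.mem_bot] at h1
  exact pow_ne_zero n hx0 h1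

theorem dv_ne [IsDomain S] [IsFractionRing S K] {N : Submodule S K} (hN : N.FG) : 1 / N ≠ ⊥ := by
  obtain ⟨a, ha, h⟩ := FractionalIdeal.isFractional_of_fg (S := nonZeroDivisors S) hN
  intro h0
  have h1 : algebraMap S K a ∈ 1 / N := by
    rw [mem_dv]
    intro y hy
    obtain ⟨b, hb⟩ := h y hy
    rw [Submodule.mem_one]
    exact ⟨b, by rw [hb, Algebra.smul_def]⟩
  rw [h0, Submodule.mem_bot] at h1
  have h2 : a = 0 := (IsFractionRing.injective S K) (by rw [h1, map_zero])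
  exact nonZeroDivisors.ne_zero ha h2

end

theorem teq (h1 : S_DQE) (h2 : S_DDC) : S_TEQ := by
  intro q S K _ _ _ _ _ _ _ C hq hC hfg
  have hM : C ^ (q - 1) ≠ ⊥ := pow_ne hC _
  have hMf : (C ^ (q - 1)).FG := hfg.pow _
  have hD : Dq q C = 1 / C ^ (q - 1) := h1 q S K C (by omega) hC hfg
  have key : ∀ n : ℕ, 1 / (1 / (Dq q C) ^ n) = 1 / (C ^ (q - 1)) ^ n := by
    intro n
    rw [hD, h2 n S K _ hM hMf, ddd]
  constructor
  · rintro ⟨n, hn, t, ht⟩
    refine ⟨n, hn, (t ^ (q - 1))⁻¹, ?_⟩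
    rw [key n]
    have hN : C ^ n ≠ ⊥ := pow_ne hC n
    have hNf : (C ^ n).FG := hfg.pow n
    have ht0 : t ≠ 0 := by
      rintro rfl
      rw [Submodule.span_zero_singleton] at ht
      have h3 := le_dd (C ^ n)
      rw [ht] at h3
      exact hN (le_bot_iff.mp h3)
    have h3 : 1 / C ^ n = Submodule.span S {t⁻¹} := by
      rw [← ddd, ht, dv_span ht0]
    have h4 := h2 (q - 1) S K _ hN hNf
    rw [h3, span_pow', dv_span (pow_ne_zero _ (inv_ne_zero ht0)), inv_pow, inv_inv] at h4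
    rw [← pow_mul, mul_comm, pow_mul, ← ddd, ← h4, dv_span (pow_ne_zero _ ht0)]
  · rintro ⟨n, hn, s, hs⟩
    rw [key n] at hs
    have hs0 : s ≠ 0 := by
      rintro rfl
      rw [Submodule.span_zero_singleton] at hs
      exact dv_ne (hMf.pow n) hs
    refine ⟨(q - 1) * n, ?_, s⁻¹, ?_⟩
    · exact Nat.mul_pos (by omega) (by omega)
    · rw [pow_mul, hs, dv_span hs0]

end Pool.Agent.H97.FT867TEQ
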